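import Mathlib

/-!
# Explicit formula for Stirling numbers of the second kind and its odd part modulo `2 ^ n`
-/

namespace Q263.ST

open Finset

/-- `∑ (-1)^(k+i) C(k,i) i^n`. -/
def ex (n k : ℕ) : ℤ := ∑ i ∈ range (k + 1), (-1) ^ (k + i) * (k.choose i : ℤ) * (i : ℤ) ^ n

lemma ex_succ (n k : ℕ) : ex (n + 1) (k + 1) = ((k : ℤ) + 1) * (ex n (k + 1) + ex n k) := by
  have h1 : ex (n + 1) (k + 1) = ((k : ℤ) + 1) *
      ∑ i ∈ range (k + 1), (-1) ^ (k + i) * (k.choose i : ℤ) * ((i : ℤ) + 1) ^ n := by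
    unfold ex
    rw [sum_range_succ', mul_sum]
    simp only [Nat.cast_zero, ne_eq, Nat.succ_ne_zero, not_false_eq_true, zero_pow, mul_zero,
      add_zero]
    apply sum_congr rfl
    intro i _
    have hc : ((k + 1).choose (i + 1) : ℤ) * ((i : ℤ) + 1) = ((k : ℤ) + 1) * (k.choose i : ℤ) := by
      have := Nat.add_one_mul_choose_eq k i
      have h2 : (((k + 1) * k.choose i : ℕ) : ℤ) = (((k + 1).choose (i + 1) * (i + 1) : ℕ) : ℤ) := by
        rw [this]
      push_cast at h2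
      linarith
    push_cast
    rw [pow_succ ((i : ℤ) + 1) n]
    have e : (-1 : ℤ) ^ (k + 1 + (i + 1)) = (-1) ^ (k + i) := by
      rw [show k + 1 + (i + 1) = k + i + 2 by ring, pow_add]; norm_num
    rw [e]
    linear_combination (-1) ^ (k + i) * ((i : ℤ) + 1) ^ n * hc
  have h2 : ex n (k + 1) + ex n k =
      ∑ i ∈ range (k + 1), (-1) ^ (k + i) * (k.choose i : ℤ) * ((i : ℤ) + 1) ^ n := by
    have h3 : ex n k = ∑ i ∈ range (k + 2), (-1) ^ (k + i) * (k.choose i : ℤ) * (i : ℤ) ^ n := by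
      rw [sum_range_succ]
      simp [ex]
    rw [h3]
    unfold ex
    rw [← sum_add_distrib, sum_range_succ']
    have h0 : (-1 : ℤ) ^ (k + 1 + 0) * ((k + 1).choose 0 : ℤ) * ((0 : ℕ) : ℤ) ^ n +
        (-1) ^ (k + 0) * (k.choose 0 : ℤ) * ((0 : ℕ) : ℤ) ^ n = 0 := by
      simp [pow_succ]
    rw [h0, add_zero]
    apply sum_congr rfl
    intro i _
    rw [Nat.choose_succ_succ]
    have e : (-1 : ℤ) ^ (k + 1 + (i + 1)) = (-1) ^ (k + i) := by
      rw [show k + 1 + (i + 1) = k + i + 2 by ring, pow_add]; norm_num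
    have e' : (-1 : ℤ) ^ (k + (i + 1)) = -(-1) ^ (k + i) := by
      rw [show k + (i + 1) = k + i + 1 by ring, pow_add]; norm_num
    rw [e, e']
    push_cast
    ring
  rw [h1, h2]

theorem ex_eq (n : ℕ) : ∀ k, ex n k = (k.factorial : ℤ) * (Nat.stirlingSecond n k : ℤ) := by
  induction n with
  | zero =>
    intro k
    rcases k with - | k
    · simp [ex]
    · rw [Nat.stirlingSecond_zero_succ]
      have h := Int.alternating_sum_range_choose_of_ne (Nat.succ_ne_zero k)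
      unfold ex
      simp only [pow_zero, mul_one]
      have : ∀ i ∈ range (k + 1 + 1), (-1 : ℤ) ^ (k + 1 + i) * ((k + 1).choose i : ℤ) =
          (-1) ^ (k + 1) * ((-1) ^ i * ((k + 1).choose i : ℤ)) := by
        intro i _
        rw [pow_add]; ring
      rw [sum_congr rfl this, ← mul_sum]
      rw [show k + 1 + 1 = k.succ + 1 from rfl, h]
      simp
  | succ n ih =>
    intro k
    rcases k with - | k
    · simp [ex]
    · rw [ex_succ, ih, ih, Nat.stirlingSecond_succ_succ, Nat.factorial_succ]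
      push_cast
      ring

lemma sum_even_odd (F : ℕ → ℤ) (t : ℕ) :
    ∑ i ∈ range (2 * t), F i = ∑ i ∈ range t, F (2 * i) + ∑ i ∈ range t, F (2 * i + 1) := by
  induction t with
  | zero => simp
  | succ t ih =>
    rw [show 2 * (t + 1) = 2 * t + 1 + 1 by ring, sum_range_succ, sum_range_succ, ih,
      sum_range_succ, sum_range_succ]
    ring

/-- The odd part of the explicit formula. -/
def g (k t n : ℕ) : ℕ := ∑ i ∈ range t, k.choose (2 * i + 1) * (2 * i + 1) ^ n

lemma dvd_add_g {k t n : ℕ} (hk : k + 1 ≤ 2 * t) :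
    (2 : ℤ) ^ n ∣ (k.factorial : ℤ) * (Nat.stirlingSecond n k : ℤ) + (-1) ^ k * (g k t n : ℤ) := by
  rw [← ex_eq]
  have h1 : ex n k = ∑ i ∈ range (2 * t), (-1) ^ (k + i) * (k.choose i : ℤ) * (i : ℤ) ^ n := by
    unfold ex
    apply sum_subset (range_subset_range.mpr hk)
    intro i _ hi
    rw [mem_range, not_lt] at hi
    rw [Nat.choose_eq_zero_of_lt (by omega)]
    simp
  rw [h1, sum_even_odd]
  have h2 : ∑ i ∈ range t, (-1 : ℤ) ^ (k + (2 * i + 1)) * (k.choose (2 * i + 1) : ℤ) *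
      ((2 * i + 1 : ℕ) : ℤ) ^ n + (-1) ^ k * (g k t n : ℤ) = 0 := by
    unfold g
    push_cast
    rw [mul_sum, ← sum_add_distrib]
    apply sum_eq_zero
    intro i _
    have e : (-1 : ℤ) ^ (k + (2 * i + 1)) = -(-1) ^ k := by
      rw [pow_add, pow_add, pow_mul]; norm_num
    rw [e]
    ring
  rw [add_assoc, h2, add_zero]
  apply dvd_sum
  intro i _
  apply Dvd.dvd.mul_left
  push_cast
  rw [mul_pow]
  exact Dvd.intro _ rfl

/-- Divisibility transfer. -/
lemma transfer {k t n e : ℕ} (hk : k + 1 ≤ 2 * t) (he : e ≤ n) :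
    2 ^ e ∣ k.factorial * Nat.stirlingSecond n k ↔ 2 ^ e ∣ g k t n := by
  have h := (pow_dvd_pow (2 : ℤ) he).trans (dvd_add_g hk)
  have e1 : 2 ^ e ∣ k.factorial * Nat.stirlingSecond n k ↔
      (2 : ℤ) ^ e ∣ (k.factorial : ℤ) * (Nat.stirlingSecond n k : ℤ) := by
    rw [← Int.natCast_dvd_natCast]; push_cast; rfl
  have e2 : 2 ^ e ∣ g k t n ↔ (2 : ℤ) ^ e ∣ (-1) ^ k * (g k t n : ℤ) := by
    rw [← Int.natCast_dvd_natCast]
    push_cast
    rcases neg_one_pow_eq_or ℤ k with h | h <;> rw [h]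
    · rw [one_mul]
    · rw [neg_one_mul, dvd_neg]
  rw [e1, e2]
  exact ⟨fun h' => (dvd_add_right h').mp h, fun h' => (dvd_add_left h').mp h⟩

end Q263.ST
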