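import Mathlib
import Pool.Agent.Q263.ST.Expl

/-!
# 2-adic behaviour of the odd part on a residue class
-/

namespace Q263.ST

open Finset

/-- The `r`-th Mahler coefficient of `y ↦ g (n + 2 ^ m y)`. -/
def A (k t n m r : ℕ) : ℕ :=
  ∑ i ∈ range t, k.choose (2 * i + 1) * (2 * i + 1) ^ n * ((2 * i + 1) ^ (2 ^ m) - 1) ^ r

lemma g_expand (k t n m y : ℕ) :
    g k t (n + 2 ^ m * y) = ∑ r ∈ range (y + 1), A k t n m r * y.choose r := by
  unfold g A
  have h : ∀ i ∈ range t, k.choose (2 * i + 1) * (2 * i + 1) ^ (n + 2 ^ m * y) =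
      ∑ r ∈ range (y + 1), k.choose (2 * i + 1) * (2 * i + 1) ^ n *
        ((2 * i + 1) ^ (2 ^ m) - 1) ^ r * y.choose r := by
    intro i _
    obtain ⟨d, hd⟩ : ∃ d, (2 * i + 1) ^ (2 ^ m) = d + 1 :=
      ⟨(2 * i + 1) ^ (2 ^ m) - 1, (Nat.sub_add_cancel (Nat.one_le_pow _ _ (by omega))).symm⟩
    rw [pow_add, pow_mul, hd, Nat.add_sub_cancel, add_pow d 1 y, mul_sum, mul_sum]
    apply sum_congr rfl
    intro r _
    rw [one_pow, Nat.cast_id]
    ring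
  rw [sum_congr rfl h, sum_comm]
  apply sum_congr rfl
  intro r _
  rw [sum_mul]

lemma pow_sub_one_dvd (i m : ℕ) : 2 ^ (m + 3) ∣ (2 * i + 1) ^ (2 ^ (m + 1)) - 1 := by
  have h : ∀ m : ℕ, ∃ d, (2 * i + 1) ^ (2 ^ (m + 1)) = 2 ^ (m + 3) * d + 1 := by
    intro m
    induction m with
    | zero =>
      have h2 : 2 ∣ i * (i + 1) := (Nat.even_mul_succ_self i).two_dvd
      obtain ⟨d, hd⟩ := h2
      refine ⟨d, ?_⟩
      norm_num
      nlinarith [hd]
    | succ m ih =>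
      obtain ⟨d, hd⟩ := ih
      refine ⟨2 ^ (m + 2) * d ^ 2 + d, ?_⟩
      rw [show 2 ^ (m + 1 + 1) = 2 ^ (m + 1) * 2 by rw [← pow_succ], pow_mul, hd]
      ring
  obtain ⟨d, hd⟩ := h m
  rw [hd, Nat.add_sub_cancel]
  exact Dvd.intro _ rfl

lemma A_dvd (k t n m r : ℕ) : 2 ^ ((m + 3) * r) ∣ A k t n (m + 1) r := by
  unfold A
  apply dvd_sum
  intro i _
  rw [pow_mul]
  exact (pow_dvd_pow_of_dvd (pow_sub_one_dvd i m) r).mul_left _

/-- Conditions for a class of constant valuation. -/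
def CondC (k t n m V R : ℕ) : Prop :=
  1 ≤ m ∧ 2 ^ V ∣ A k t n m 0 ∧ ¬ 2 ^ (V + 1) ∣ A k t n m 0 ∧
    (∀ r < R, 2 ^ (V + 1) ∣ A k t n m (r + 1)) ∧ V + 1 ≤ (R + 1) * (m + 2)

lemma const_leaf {k t n m V R : ℕ} (h : CondC k t n m V R) (y : ℕ) :
    2 ^ V ∣ g k t (n + 2 ^ m * y) ∧ ¬ 2 ^ (V + 1) ∣ g k t (n + 2 ^ m * y) := by
  obtain ⟨hm, h0, h1, h2, h3⟩ := h
  obtain ⟨m, rfl⟩ := Nat.exists_eq_add_of_le' hm
  have hall : ∀ r, 2 ^ (V + 1) ∣ A k t n (m + 1) (r + 1) := by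
    intro r
    rcases Nat.lt_or_ge r R with hr | hr
    · exact h2 r hr
    · refine (pow_dvd_pow 2 ?_).trans (A_dvd k t n m (r + 1))
      calc V + 1 ≤ (R + 1) * (m + 1 + 2) := h3
        _ ≤ (r + 1) * (m + 3) := Nat.mul_le_mul (by omega) (by omega)
        _ = _ := by ring
  have hg : g k t (n + 2 ^ (m + 1) * y) = A k t n (m + 1) 0 +
      ∑ r ∈ range y, A k t n (m + 1) (r + 1) * y.choose (r + 1) := by
    rw [g_expand, sum_range_succ']
    simp [add_comm]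
  have hs : 2 ^ (V + 1) ∣ ∑ r ∈ range y, A k t n (m + 1) (r + 1) * y.choose (r + 1) :=
    dvd_sum fun r _ => (hall r).mul_right _
  rw [hg]
  exact ⟨(Nat.dvd_add_right h0).mpr ((pow_dvd_pow 2 (Nat.le_succ V)).trans hs),
    fun h => h1 ((Nat.dvd_add_left hs).mp h)⟩

/-- Conditions for a class with exactly one zero. -/
def CondZ (k t n m v R : ℕ) : Prop :=
  1 ≤ m ∧ 2 ^ v ∣ A k t n m 0 ∧ 2 ^ v ∣ A k t n m 1 ∧ ¬ 2 ^ (v + 1) ∣ A k t n m 1 ∧
    (∀ r < R, 2 ^ (v + (r + 2)) ∣ A k t n m (r + 2)) ∧ v ≤ (R + 2) * (m + 1)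

lemma choose_diff (y s r : ℕ) :
    (2 : ℤ) ^ s ∣ 2 ^ (r + 1) * (((y + 2 ^ s).choose (r + 2) : ℤ) - (y.choose (r + 2) : ℤ)) := by
  -- `r + 2` factorial is `2 ^ e * odd` with `e ≤ r + 1`
  obtain ⟨e, o, ho, he⟩ := Nat.exists_eq_two_pow_mul_odd (Nat.factorial_ne_zero (r + 2))
  have hle : e ≤ r + 1 := by
    have h1 : emultiplicity 2 (r + 2).factorial < (r + 2 : ℕ) := by
      have := Nat.emultiplicity_two_factorial_lt (n := r + 2) (by omega)
      exact_mod_cast this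
    have h2 : (e : ℕ∞) ≤ emultiplicity 2 (r + 2).factorial := by
      apply le_emultiplicity_of_pow_dvd
      rw [he]; exact Dvd.intro _ rfl
    have h3 : (e : ℕ∞) < ((r + 2 : ℕ) : ℕ∞) := lt_of_le_of_lt h2 h1
    have h4 : e < r + 2 := by exact_mod_cast h3
    omega
  have hfac : ((2 : ℤ) ^ s) ∣ ((y + 2 ^ s).descFactorial (r + 2) : ℤ) -
      (y.descFactorial (r + 2) : ℤ) := by
    have h1 := Polynomial.sub_dvd_eval_sub (((y + 2 ^ s : ℕ) : ℤ)) ((y : ℕ) : ℤ)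
      (descPochhammer ℤ (r + 2))
    rw [descPochhammer_eval_eq_descFactorial, descPochhammer_eval_eq_descFactorial] at h1
    simpa using h1
  rw [Nat.descFactorial_eq_factorial_mul_choose, Nat.descFactorial_eq_factorial_mul_choose,
    he] at hfac
  push_cast at hfac
  rw [← mul_sub, mul_assoc, mul_left_comm] at hfac
  have hco : IsCoprime ((2 : ℤ) ^ s) (o : ℤ) := by
    apply IsCoprime.pow_left
    exact_mod_cast Nat.isCoprime_iff_coprime.mpr (Nat.coprime_two_left.mpr ho)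
  have h5 := hco.dvd_of_dvd_mul_left hfac
  obtain ⟨f, hf⟩ := Nat.exists_eq_add_of_le hle
  rw [hf, pow_add]
  rw [mul_assoc, mul_left_comm]
  exact h5.mul_left _

lemma zero_leaf {k t n m v R : ℕ} (h : CondZ k t n m v R) (y s : ℕ) :
    (2 : ℤ) ^ (v + s + 1) ∣ (g k t (n + 2 ^ m * (y + 2 ^ s)) : ℤ) - (g k t (n + 2 ^ m * y) : ℤ) -
      2 ^ (v + s) := by
  obtain ⟨hm, h0, h1, h1', h2, h3⟩ := h
  obtain ⟨m, rfl⟩ := Nat.exists_eq_add_of_le' hm
  have hall : ∀ r, 2 ^ (v + (r + 2)) ∣ A k t n (m + 1) (r + 2) := by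
    intro r
    rcases Nat.lt_or_ge r R with hr | hr
    · exact h2 r hr
    · refine (pow_dvd_pow 2 ?_).trans (A_dvd k t n m (r + 2))
      calc v + (r + 2) ≤ (R + 2) * (m + 1 + 1) + (r + 2) := by omega
        _ ≤ (r + 2) * (m + 2) + (r + 2) := by
          apply Nat.add_le_add_right
          exact Nat.mul_le_mul (by omega) (by omega)
        _ = _ := by ring
  -- extend the sums to a common range
  have hg : ∀ z, z ≤ y + 2 ^ s → (g k t (n + 2 ^ (m + 1) * z) : ℤ) = (A k t n (m + 1) 0 : ℤ) +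
      (A k t n (m + 1) 1 : ℤ) * z +
      ∑ r ∈ range (y + 2 ^ s), (A k t n (m + 1) (r + 2) : ℤ) * (z.choose (r + 2) : ℤ) := by
    intro z hz
    have e1 : (g k t (n + 2 ^ (m + 1) * z) : ℤ) =
        ∑ r ∈ range (y + 2 ^ s + 2), (A k t n (m + 1) r : ℤ) * (z.choose r : ℤ) := by
      rw [g_expand]
      push_cast
      apply sum_subset (range_subset_range.mpr (by omega))
      intro r _ hr
      rw [mem_range, not_lt] at hr
      rw [Nat.choose_eq_zero_of_lt (by omega)]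
      simp
    rw [e1, sum_range_succ', sum_range_succ']
    simp
    ring
  rw [hg (y + 2 ^ s) le_rfl, hg y (Nat.le_add_right _ _)]
  have e2 : ∀ a b S1 S2 : ℤ, a + b * ((y + 2 ^ s : ℕ) : ℤ) + S1 - (a + b * (y : ℤ) + S2) -
      2 ^ (v + s) = (b * 2 ^ s - 2 ^ (v + s)) + (S1 - S2) := by
    intro a b S1 S2
    push_cast
    ring
  rw [e2]
  apply dvd_add
  · obtain ⟨b, hb⟩ := h1
    have hodd : ¬ 2 ∣ b := by
      rintro ⟨c, hc⟩
      apply h1'
      rw [hb, hc]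
      exact ⟨c, by ring⟩
    obtain ⟨c, hc⟩ : ∃ c, b = 2 * c + 1 := ⟨b / 2, by omega⟩
    rw [hb, hc]
    push_cast
    exact ⟨c, by ring⟩
  · rw [← sum_sub_distrib]
    apply dvd_sum
    intro r _
    rw [← mul_sub]
    obtain ⟨a, ha⟩ := hall r
    obtain ⟨c, hc⟩ := choose_diff y s r
    rw [ha]
    push_cast
    refine ⟨a * c, ?_⟩
    calc (2 : ℤ) ^ (v + (r + 2)) * a * (((y + 2 ^ s).choose (r + 2) : ℤ) - (y.choose (r + 2) : ℤ))
        = 2 ^ (v + 1) * a * (2 ^ (r + 1) *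
          (((y + 2 ^ s).choose (r + 2) : ℤ) - (y.choose (r + 2) : ℤ))) := by ring
      _ = _ := by rw [hc]; ring

end Q263.ST
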