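import Mathlib
import Pool.Agent.Q263.ST.Leaf

/-!
# Counting the residue classes on which the 2-adic valuation of `S(j,k)` is not constant
-/

namespace Q263.ST

open Finset

/-- Non-constancy of the valuation on the class of `x` modulo `2 ^ M`. -/
def Bad (k M x : ℕ) : Prop := ∃ j₁ j₂ : ℕ, 2 ^ M ≤ j₁ ∧ 2 ^ M ≤ j₂ ∧ j₁ ≡ x [MOD 2 ^ M] ∧
  j₂ ≡ x [MOD 2 ^ M] ∧
  padicValNat 2 (Nat.stirlingSecond j₁ k) ≠ padicValNat 2 (Nat.stirlingSecond j₂ k)

open Classical in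
/-- The number of bad classes modulo `2 ^ M` inside the class of `n` modulo `2 ^ m`. -/
noncomputable def cnt (k M n m : ℕ) : ℕ :=
  ((range (2 ^ M)).filter (fun x => x ≡ n [MOD 2 ^ m] ∧ Bad k M x)).card

lemma stirling_pos {j k : ℕ} (hk : 1 ≤ k) (h : k ≤ j) : 0 < Nat.stirlingSecond j k := by
  induction j, h using Nat.le_induction with
  | base => rw [Nat.stirlingSecond_self]; norm_num
  | succ j hj ih =>
    obtain ⟨k, rfl⟩ := Nat.exists_eq_add_of_le' hk
    rw [Nat.stirlingSecond_succ_succ]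
    positivity

lemma val_eq {k j V : ℕ} (hk : 1 ≤ k) (hj : k ≤ j)
    (h1 : 2 ^ V ∣ k.factorial * Nat.stirlingSecond j k)
    (h2 : ¬ 2 ^ (V + 1) ∣ k.factorial * Nat.stirlingSecond j k) :
    padicValNat 2 k.factorial + padicValNat 2 (Nat.stirlingSecond j k) = V := by
  have hS := (stirling_pos hk hj).ne'
  have hF := Nat.factorial_ne_zero k
  rw [← padicValNat.mul hF hS]
  have hne := mul_ne_zero hF hS
  apply le_antisymm
  · by_contra h
    exact h2 ((padicValNat_dvd_iff_le hne).mpr (by omega))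
  · exact (padicValNat_dvd_iff_le hne).mp h1

lemma val_ge {k j V : ℕ} (hk : 1 ≤ k) (hj : k ≤ j)
    (h1 : 2 ^ V ∣ k.factorial * Nat.stirlingSecond j k) :
    V ≤ padicValNat 2 k.factorial + padicValNat 2 (Nat.stirlingSecond j k) := by
  have hS := (stirling_pos hk hj).ne'
  have hF := Nat.factorial_ne_zero k
  rw [← padicValNat.mul hF hS]
  exact (padicValNat_dvd_iff_le (mul_ne_zero hF hS)).mp h1

lemma class_form {n m M x j : ℕ} (hm : m ≤ M) (hn : n < 2 ^ m) (hx : x ≡ n [MOD 2 ^ m])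
    (hj : j ≡ x [MOD 2 ^ M]) : ∃ y, j = n + 2 ^ m * y := by
  have h1 : j ≡ n [MOD 2 ^ m] := (hj.of_dvd (pow_dvd_pow 2 hm)).trans hx
  refine ⟨j / 2 ^ m, ?_⟩
  have h2 : j % 2 ^ m = n := by
    rw [h1, Nat.mod_eq_of_lt hn]
  have := Nat.mod_add_div j (2 ^ m)
  omega

lemma cnt_C {k t n m V R M : ℕ} (hk : 1 ≤ k) (ht : k + 1 ≤ 2 * t) (h : CondC k t n m V R)
    (hm : m ≤ M) (hn : n < 2 ^ m) (hV : V + 1 ≤ 2 ^ M) (hkM : k ≤ 2 ^ M) : cnt k M n m = 0 := by
  classical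
  unfold cnt
  rw [card_eq_zero, filter_eq_empty_iff]
  rintro x _ ⟨hx, j₁, j₂, h1, h2, h3, h4, h5⟩
  apply h5
  have key : ∀ j, 2 ^ M ≤ j → j ≡ x [MOD 2 ^ M] →
      padicValNat 2 k.factorial + padicValNat 2 (Nat.stirlingSecond j k) = V := by
    intro j hj hjx
    obtain ⟨y, rfl⟩ := class_form hm hn hx hjx
    obtain ⟨ha, hb⟩ := const_leaf h y
    refine val_eq hk (hkM.trans hj) ?_ ?_
    · exact (transfer ht (by omega)).mpr ha
    · exact fun h' => hb ((transfer ht (by omega)).mp h')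
  have e1 := key j₁ h1 h3
  have e2 := key j₂ h2 h4
  omega

/-- The structure of a class with a zero. -/
structure DD (h : ℕ → ℕ) (v : ℕ) : Prop where
  zero : 2 ^ v ∣ h 0
  step : ∀ y s, (2 : ℤ) ^ (v + s + 1) ∣ (h (y + 2 ^ s) : ℤ) - (h y : ℤ) - 2 ^ (v + s)

lemma DD.per {h : ℕ → ℕ} {v : ℕ} (H : DD h v) (s y z : ℕ) :
    (2 : ℤ) ^ (v + s) ∣ (h (y + 2 ^ s * z) : ℤ) - (h y : ℤ) := by
  induction z with
  | zero => simp
  | succ z ih =>
    have h1 := H.step (y + 2 ^ s * z) s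
    have h2 := (pow_dvd_pow (2 : ℤ) (Nat.le_succ (v + s))).trans h1
    have h3 := dvd_add (dvd_add h2 ih) (dvd_refl ((2 : ℤ) ^ (v + s)))
    rw [show y + 2 ^ s * (z + 1) = y + 2 ^ s * z + 2 ^ s by ring]
    rw [show (h (y + 2 ^ s * z + 2 ^ s) : ℤ) - (h y : ℤ) =
      (h (y + 2 ^ s * z + 2 ^ s) : ℤ) - (h (y + 2 ^ s * z) : ℤ) - 2 ^ (v + s) +
        ((h (y + 2 ^ s * z) : ℤ) - (h y : ℤ)) + 2 ^ (v + s) by ring]
    exact h3

lemma DD.per' {h : ℕ → ℕ} {v : ℕ} (H : DD h v) {s e : ℕ} (he : e ≤ v + s) (y z : ℕ) :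
    2 ^ e ∣ h (y + 2 ^ s * z) ↔ 2 ^ e ∣ h y := by
  have h1 := (pow_dvd_pow (2 : ℤ) he).trans (H.per s y z)
  rw [← Int.natCast_dvd_natCast, ← Int.natCast_dvd_natCast]
  push_cast
  constructor
  · intro h2
    have := dvd_sub h2 h1
    rwa [sub_sub_cancel] at this
  · intro h2
    have := dvd_add h1 h2
    rwa [sub_add_cancel] at this

/-- Flipping: exactly one of the two lifts is divisible by the next power. -/
lemma DD.flip {h : ℕ → ℕ} {v : ℕ} (H : DD h v) {s y : ℕ} (hy : 2 ^ (v + s) ∣ h y) :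
    2 ^ (v + s + 1) ∣ h (y + 2 ^ s) ↔ ¬ 2 ^ (v + s + 1) ∣ h y := by
  obtain ⟨a, ha⟩ := H.step y s
  obtain ⟨b, hb⟩ := hy
  have h1 : (h (y + 2 ^ s) : ℤ) = 2 ^ (v + s) * (b + 1 + 2 * a) := by
    rw [hb] at ha
    push_cast at ha
    rw [pow_succ] at ha
    linarith
  have h0 : (h y : ℤ) = 2 ^ (v + s) * b := by rw [hb]; push_cast; ring
  rw [← Int.natCast_dvd_natCast, ← Int.natCast_dvd_natCast]
  push_cast
  rw [h1, h0, pow_succ]
  have hp : ((2 : ℤ) ^ (v + s)) ≠ 0 := by positivity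
  rw [mul_dvd_mul_iff_left hp, mul_dvd_mul_iff_left hp]
  omega

lemma DD.unique {h : ℕ → ℕ} {v : ℕ} (H : DD h v) (s : ℕ) :
    ∃ y₀, ∀ y, (y < 2 ^ s ∧ 2 ^ (v + s) ∣ h y) ↔ y = y₀ := by
  induction s with
  | zero =>
    refine ⟨0, fun y => ⟨fun h' => by have := h'.1; simpa using this, ?_⟩⟩
    rintro rfl
    exact ⟨by norm_num, by simpa using H.zero⟩
  | succ s ih =>
    obtain ⟨y₀, hy₀⟩ := ih
    obtain ⟨hlt, hdiv⟩ := (hy₀ y₀).mpr rfl
    have hflip := H.flip hdiv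
    -- candidates
    have hcand : ∀ y, y < 2 ^ (s + 1) → 2 ^ (v + (s + 1)) ∣ h y → y = y₀ ∨ y = y₀ + 2 ^ s := by
      intro y hy hd
      have hd' : 2 ^ (v + s) ∣ h y := (pow_dvd_pow 2 (by omega)).trans hd
      rw [pow_succ] at hy
      rcases Nat.lt_or_ge y (2 ^ s) with hl | hg
      · exact Or.inl ((hy₀ y).mp ⟨hl, hd'⟩)
      · right
        have h1 : 2 ^ (v + s) ∣ h (y - 2 ^ s) := by
          have := (H.per' (s := s) (e := v + s) le_rfl (y - 2 ^ s) 1).mp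
          rw [mul_one, Nat.sub_add_cancel hg] at this
          exact this hd'
        have := (hy₀ (y - 2 ^ s)).mp ⟨by omega, h1⟩
        omega
    by_cases hc : 2 ^ (v + s + 1) ∣ h y₀
    · refine ⟨y₀, fun y => ⟨fun h' => ?_, ?_⟩⟩
      · rcases hcand y h'.1 h'.2 with h1 | h1
        · exact h1
        · exfalso
          rw [h1] at h'
          exact (hflip.mp h'.2) hc
      · rintro rfl
        exact ⟨hlt.trans (Nat.pow_lt_pow_right (by norm_num) (Nat.lt_succ_self s)), hc⟩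
    · refine ⟨y₀ + 2 ^ s, fun y => ⟨fun h' => ?_, ?_⟩⟩
      · rcases hcand y h'.1 h'.2 with h1 | h1
        · exfalso
          rw [h1] at h'
          exact hc h'.2
        · exact h1
      · rintro rfl
        refine ⟨by rw [pow_succ]; omega, hflip.mpr hc⟩

lemma cnt_Z {k t n m v R M : ℕ} (hk : 1 ≤ k) (ht : k + 1 ≤ 2 * t) (h : CondZ k t n m v R)
    (hm : m ≤ M) (hn : n < 2 ^ m) (hV : v + M + 1 ≤ 2 ^ M) (hkM : k ≤ 2 ^ M) :
    cnt k M n m = 1 := by
  classical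
  obtain ⟨s, rfl⟩ := Nat.exists_eq_add_of_le hm
  have H : DD (fun y => g k t (n + 2 ^ m * y)) v := by
    refine ⟨?_, fun y s => zero_leaf h y s⟩
    have h0 := h.2.1
    show 2 ^ v ∣ g k t (n + 2 ^ m * 0)
    rw [g_expand]
    simpa using h0
  obtain ⟨y₀, hy₀⟩ := H.unique s
  obtain ⟨hlt, hdiv⟩ := (hy₀ y₀).mpr rfl
  unfold cnt
  rw [card_eq_one]
  refine ⟨n + 2 ^ m * y₀, ?_⟩
  ext x
  rw [mem_filter, mem_range, mem_singleton]
  constructor
  · rintro ⟨hxM, hx, j₁, j₂, h1, h2, h3, h4, h5⟩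
    obtain ⟨y, rfl⟩ := class_form hm hn hx (Nat.ModEq.refl x)
    have hys : y < 2 ^ s := by
      by_contra hge
      push Not at hge
      have : 2 ^ (m + s) ≤ 2 ^ m * y := by rw [pow_add]; exact Nat.mul_le_mul_left _ hge
      omega
    by_contra hne
    apply h5
    have hnd : ¬ 2 ^ (v + s) ∣ g k t (n + 2 ^ m * y) := by
      intro hd
      apply hne
      rw [(hy₀ y).mp ⟨hys, hd⟩]
    -- the exact valuation
    obtain ⟨e, he1, he2, he3⟩ : ∃ e, e < v + s ∧ 2 ^ e ∣ g k t (n + 2 ^ m * y) ∧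
        ¬ 2 ^ (e + 1) ∣ g k t (n + 2 ^ m * y) := by
      have hex : ∃ e, ¬ 2 ^ e ∣ g k t (n + 2 ^ m * y) := ⟨_, hnd⟩
      have hf := Nat.find_spec hex
      have hpos : 1 ≤ Nat.find hex := by
        by_contra h0
        have h0' : Nat.find hex = 0 := by omega
        rw [h0'] at hf
        exact hf (by simp)
      have hmin := Nat.find_min hex (m := Nat.find hex - 1) (by omega)
      have hle := Nat.find_min' hex hnd
      refine ⟨Nat.find hex - 1, by omega, not_not.mp hmin, ?_⟩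
      rw [Nat.sub_add_cancel hpos]
      exact hf
    have key : ∀ j, 2 ^ (m + s) ≤ j → j ≡ n + 2 ^ m * y [MOD 2 ^ (m + s)] →
        padicValNat 2 k.factorial + padicValNat 2 (Nat.stirlingSecond j k) = e := by
      intro j hj hjx
      have hjge : n + 2 ^ m * y ≤ j := by omega
      obtain ⟨z, hz⟩ : ∃ z, j = n + 2 ^ m * (y + 2 ^ s * z) := by
        obtain ⟨z, hz⟩ := (Nat.modEq_iff_dvd' hjge).mp hjx.symm
        refine ⟨z, ?_⟩
        have : j = n + 2 ^ m * y + 2 ^ (m + s) * z := by omega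
        rw [this, pow_add]
        ring
      refine val_eq hk (hkM.trans hj) ?_ ?_
      · rw [transfer ht (by omega), hz]
        exact (H.per' (s := s) (by omega) y z).mpr he2
      · rw [transfer ht (by omega), hz]
        exact fun h' => he3 ((H.per' (s := s) (by omega) y z).mp h')
    have e1 := key j₁ h1 h3
    have e2 := key j₂ h2 h4
    omega
  · rintro rfl
    have hM : 2 ^ (m + s) = 2 ^ m * 2 ^ s := pow_add _ _ _
    refine ⟨?_, ?_, ?_⟩
    · rw [hM]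
      calc n + 2 ^ m * y₀ < 2 ^ m + 2 ^ m * y₀ := by omega
        _ = 2 ^ m * (y₀ + 1) := by ring
        _ ≤ 2 ^ m * 2 ^ s := Nat.mul_le_mul_left _ hlt
    · unfold Nat.ModEq; rw [Nat.add_mul_mod_self_left]
    · have hd1 : 2 ^ (v + s) ∣ g k t (n + 2 ^ m * (y₀ + 2 ^ s)) := by
        have := (H.per' (s := s) (e := v + s) le_rfl y₀ 1).mpr hdiv
        rwa [mul_one] at this
      have hfl := H.flip hd1
      have hge1 : 2 ^ (m + s) ≤ n + 2 ^ m * (y₀ + 2 ^ s) := by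
        rw [hM, mul_add]; omega
      have hge2 : 2 ^ (m + s) ≤ n + 2 ^ m * (y₀ + 2 ^ s + 2 ^ s) := by
        rw [hM, mul_add, mul_add]; omega
      have hd2 : 2 ^ (v + s) ∣ g k t (n + 2 ^ m * (y₀ + 2 ^ s + 2 ^ s)) := by
        have := (H.per' (s := s) (e := v + s) le_rfl (y₀ + 2 ^ s) 1).mpr hd1
        rwa [mul_one] at this
      refine ⟨n + 2 ^ m * (y₀ + 2 ^ s), n + 2 ^ m * (y₀ + 2 ^ s + 2 ^ s), hge1, hge2, ?_, ?_, ?_⟩
      · unfold Nat.ModEq
        rw [show n + 2 ^ m * (y₀ + 2 ^ s) = n + 2 ^ m * y₀ + 2 ^ (m + s) by rw [hM]; ring,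
          Nat.add_mod_right]
      · unfold Nat.ModEq
        rw [show n + 2 ^ m * (y₀ + 2 ^ s + 2 ^ s) = n + 2 ^ m * y₀ + 2 ^ (m + s) * 2 by
          rw [hM]; ring, Nat.add_mul_mod_self_left]
      · intro heq
        by_cases hc : 2 ^ (v + s + 1) ∣ g k t (n + 2 ^ m * (y₀ + 2 ^ s))
        · have hc2 : ¬ 2 ^ (v + s + 1) ∣ g k t (n + 2 ^ m * (y₀ + 2 ^ s + 2 ^ s)) :=
            fun h' => hfl.mp h' hc
          have e2 := val_eq hk (hkM.trans hge2) ((transfer ht (by omega)).mpr hd2)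
            (fun h' => hc2 ((transfer ht (by omega)).mp h'))
          have e1 := val_ge hk (hkM.trans hge1) ((transfer (e := v + s + 1) ht (by omega)).mpr hc)
          omega
        · have hc2 := hfl.mpr hc
          have e1 := val_eq hk (hkM.trans hge1) ((transfer ht (by omega)).mpr hd1)
            (fun h' => hc ((transfer ht (by omega)).mp h'))
          have e2 := val_ge hk (hkM.trans hge2) ((transfer (e := v + s + 1) ht (by omega)).mpr hc2)
          omega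

/-- Splitting a class. -/
lemma cnt_N (k : ℕ) {n m M : ℕ} (hn : n < 2 ^ m) :
    cnt k M n m = cnt k M n (m + 1) + cnt k M (n + 2 ^ m) (m + 1) := by
  classical
  unfold cnt
  rw [← card_union_of_disjoint]
  · congr 1
    ext x
    simp only [mem_union, mem_filter, mem_range]
    have key : x ≡ n [MOD 2 ^ m] ↔ x ≡ n [MOD 2 ^ (m + 1)] ∨ x ≡ n + 2 ^ m [MOD 2 ^ (m + 1)] := by
      have hp : 2 ^ (m + 1) = 2 * 2 ^ m := by ring
      have hpos := Nat.two_pow_pos m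
      unfold Nat.ModEq
      rw [Nat.mod_eq_of_lt hn, Nat.mod_eq_of_lt (show n < 2 ^ (m + 1) by omega),
        Nat.mod_eq_of_lt (show n + 2 ^ m < 2 ^ (m + 1) by omega)]
      have h1 := Nat.mod_lt x (show 0 < 2 ^ (m + 1) by omega)
      have h2 : x % 2 ^ m = (x % 2 ^ (m + 1)) % 2 ^ m :=
        (Nat.mod_mod_of_dvd x (pow_dvd_pow 2 (Nat.le_succ m))).symm
      rw [h2]
      generalize x % 2 ^ (m + 1) = z at *
      rcases Nat.lt_or_ge z (2 ^ m) with h | h
      · rw [Nat.mod_eq_of_lt h]; omega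
      · have : z % 2 ^ m = z - 2 ^ m := by
          rw [Nat.mod_eq_sub_mod h, Nat.mod_eq_of_lt (by omega)]
        rw [this]; omega
    tauto
  · rw [disjoint_filter]
    rintro x _ ⟨h1, _⟩ ⟨h2, _⟩
    have h3 := h1.symm.trans h2
    have hp : 2 ^ (m + 1) = 2 * 2 ^ m := by ring
    have hpos := Nat.two_pow_pos m
    unfold Nat.ModEq at h3
    rw [Nat.mod_eq_of_lt (show n < 2 ^ (m + 1) by omega),
        Nat.mod_eq_of_lt (show n + 2 ^ m < 2 ^ (m + 1) by omega)] at h3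
    omega

/-- Certificates: binary trees of residue classes. -/
inductive Tr : Type
  | C (V R : ℕ) : Tr
  | Z (v R : ℕ) : Tr
  | N (a b : Tr) : Tr

/-- The number of classes with a zero. -/
def Tr.zeros : Tr → ℕ
  | .C _ _ => 0
  | .Z _ _ => 1
  | .N a b => a.zeros + b.zeros

/-- Validity of a tree for the class of `n` modulo `2 ^ m`. -/
def Tr.Ok (k t : ℕ) : Tr → ℕ → ℕ → Prop
  | .C V R, n, m => CondC k t n m V R
  | .Z v R, n, m => CondZ k t n m v R
  | .N a b, n, m => a.Ok k t n (m + 1) ∧ b.Ok k t (n + 2 ^ m) (m + 1)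

/-- All leaves are at level at most `d` and their numbers are at most `d`. -/
def Tr.Bd (d : ℕ) : Tr → ℕ → Prop
  | .C V _, m => m ≤ d ∧ V ≤ d
  | .Z v _, m => m ≤ d ∧ v ≤ d
  | .N a b, m => a.Bd d (m + 1) ∧ b.Bd d (m + 1) ∧ m + 1 ≤ d

theorem count_tree {k t d M : ℕ} (hk : 1 ≤ k) (ht : k + 1 ≤ 2 * t) (hM : d + M + 1 ≤ 2 ^ M)
    (hdM : d ≤ M) (hkM : k ≤ 2 ^ M) (T : Tr) : ∀ n m, n < 2 ^ m → T.Ok k t n m → T.Bd d m →
    cnt k M n m = T.zeros := by
  induction T with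
  | C V R =>
    intro n m hn hok hbd
    exact cnt_C hk ht hok (hbd.1.trans hdM) hn (by have := hbd.2; omega) hkM
  | Z v R =>
    intro n m hn hok hbd
    exact cnt_Z hk ht hok (hbd.1.trans hdM) hn (by have := hbd.2; omega) hkM
  | N a b iha ihb =>
    intro n m hn hok hbd
    have hp : 2 ^ (m + 1) = 2 * 2 ^ m := by ring
    rw [cnt_N k hn, iha n (m + 1) (by omega) hok.1 hbd.1,
      ihb (n + 2 ^ m) (m + 1) (by omega) hok.2 hbd.2.1]
    rfl

end Q263.ST
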