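import Mathlib
import Pool.Agent.Q263.ST.Tree

/-!
# Certificates for `k = 70` and `k = 71`
-/

namespace Q263.ST

open Finset

/-- Evaluation of the Mahler coefficients from a list of pairs (binomial coefficient, base). -/
def Al (n e r : ℕ) : List (ℕ × ℕ) → ℕ
  | [] => 0
  | p :: L => p.1 * p.2 ^ n * (p.2 ^ e - 1) ^ r + Al n e r L

lemma Al_append (n e r : ℕ) (L L' : List (ℕ × ℕ)) : Al n e r (L ++ L') = Al n e r L + Al n e r L' := by
  induction L with
  | nil => simp [Al]
  | cons p L ih => simp [Al, ih, add_assoc]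

lemma Al_map (n e r t : ℕ) (f : ℕ → ℕ × ℕ) : Al n e r ((List.range t).map f) =
    ∑ i ∈ range t, (f i).1 * (f i).2 ^ n * ((f i).2 ^ e - 1) ^ r := by
  induction t with
  | zero => simp [Al]
  | succ t ih =>
    rw [List.range_succ, List.map_append, Al_append, ih, sum_range_succ]
    simp [Al]

/-- Binomial coefficients through factorials. -/
def fc (k j : ℕ) : ℕ := if j ≤ k then k.factorial / (j.factorial * (k - j).factorial) else 0

lemma fc_eq (k j : ℕ) : fc k j = k.choose j := by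
  unfold fc
  split_ifs with h
  · rw [Nat.choose_eq_factorial_div_factorial h]
  · rw [Nat.choose_eq_zero_of_lt (by omega)]

lemma A_eq {k t : ℕ} {L : List (ℕ × ℕ)}
    (hL : L = (List.range t).map (fun i => (fc k (2 * i + 1), 2 * i + 1))) (n m r : ℕ) :
    A k t n m r = Al n (2 ^ m) r L := by
  rw [hL, Al_map]
  simp only [fc_eq]
  rfl

/-- The check of a certificate. -/
def chk (L : List (ℕ × ℕ)) : Tr → ℕ → ℕ → Bool
  | .C V R, n, m => Nat.ble 1 m && Nat.beq (Al n (2 ^ m) 0 L % 2 ^ V) 0 &&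
      !(Nat.beq (Al n (2 ^ m) 0 L % 2 ^ (V + 1)) 0) &&
      (List.range R).all (fun r => Nat.beq (Al n (2 ^ m) (r + 1) L % 2 ^ (V + 1)) 0) &&
      Nat.ble (V + 1) ((R + 1) * (m + 2))
  | .Z v R, n, m => Nat.ble 1 m && Nat.beq (Al n (2 ^ m) 0 L % 2 ^ v) 0 &&
      Nat.beq (Al n (2 ^ m) 1 L % 2 ^ v) 0 && !(Nat.beq (Al n (2 ^ m) 1 L % 2 ^ (v + 1)) 0) &&
      (List.range R).all (fun r => Nat.beq (Al n (2 ^ m) (r + 2) L % 2 ^ (v + (r + 2))) 0) &&
      Nat.ble v ((R + 2) * (m + 1))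
  | .N a b, n, m => chk L a n (m + 1) && chk L b (n + 2 ^ m) (m + 1)

lemma chk_ok {k t : ℕ} {L : List (ℕ × ℕ)}
    (hL : L = (List.range t).map (fun i => (fc k (2 * i + 1), 2 * i + 1))) (T : Tr) :
    ∀ n m, chk L T n m = true → T.Ok k t n m := by
  induction T with
  | C V R =>
    intro n m h
    simp only [chk, Bool.and_eq_true, Bool.not_eq_true', List.all_eq_true, List.mem_range,
      Nat.ble_eq] at h
    obtain ⟨⟨⟨⟨h1, h2⟩, h3⟩, h4⟩, h5⟩ := h
    refine ⟨h1, ?_, ?_, ?_, h5⟩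
    · rw [A_eq hL]; exact Nat.dvd_of_mod_eq_zero (Nat.eq_of_beq_eq_true h2)
    · rw [A_eq hL]
      intro hd
      rw [Nat.mod_eq_zero_of_dvd hd] at h3
      exact absurd h3 (by decide)
    · intro r hr
      rw [A_eq hL]; exact Nat.dvd_of_mod_eq_zero (Nat.eq_of_beq_eq_true (h4 r hr))
  | Z v R =>
    intro n m h
    simp only [chk, Bool.and_eq_true, Bool.not_eq_true', List.all_eq_true, List.mem_range,
      Nat.ble_eq] at h
    obtain ⟨⟨⟨⟨⟨h1, h2⟩, h3⟩, h4⟩, h5⟩, h6⟩ := h
    refine ⟨h1, ?_, ?_, ?_, ?_, h6⟩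
    · rw [A_eq hL]; exact Nat.dvd_of_mod_eq_zero (Nat.eq_of_beq_eq_true h2)
    · rw [A_eq hL]; exact Nat.dvd_of_mod_eq_zero (Nat.eq_of_beq_eq_true h3)
    · rw [A_eq hL]
      intro hd
      rw [Nat.mod_eq_zero_of_dvd hd] at h4
      exact absurd h4 (by decide)
    · intro r hr
      rw [A_eq hL]; exact Nat.dvd_of_mod_eq_zero (Nat.eq_of_beq_eq_true (h5 r hr))
  | N a b iha ihb =>
    intro n m h
    simp only [chk, Bool.and_eq_true] at h
    exact ⟨iha _ _ h.1, ihb _ _ h.2⟩

/-- The check of the bound. -/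
def bchk (d : ℕ) : Tr → ℕ → Bool
  | .C V _, m => Nat.ble m d && Nat.ble V d
  | .Z v _, m => Nat.ble m d && Nat.ble v d
  | .N a b, m => bchk d a (m + 1) && bchk d b (m + 1) && Nat.ble (m + 1) d

lemma bchk_ok (d : ℕ) (T : Tr) : ∀ m, bchk d T m = true → T.Bd d m := by
  induction T with
  | C V R => intro m h; simpa [bchk, Tr.Bd] using h
  | Z v R => intro m h; simpa [bchk, Tr.Bd] using h
  | N a b iha ihb =>
    intro m h
    simp only [bchk, Bool.and_eq_true, Nat.ble_eq] at h
    exact ⟨iha _ h.1.1, ihb _ h.1.2, h.2⟩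

/-- Odd binomial coefficients of `70`. -/
def L70 : List (ℕ × ℕ) :=
  [(70, 1), (54740, 3), (12103014, 5), (1198774720, 7), (65033528560, 9), (2163842859360, 11),
  (47465835030320, 13), (721480692460864, 15), (7877932561061640, 17), (63484158299081520, 19),
  (385439532530137800, 21), (1791608261879217600, 23), (6455761770304780752, 25),
  (18208558839321176480, 27), (40498346384007444240, 29), (71416438784701299520, 31),
  (100226479430802391940, 33), (112186277816662845432, 35), (100226479430802391940, 37),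
  (71416438784701299520, 39), (40498346384007444240, 41), (18208558839321176480, 43),
  (6455761770304780752, 45), (1791608261879217600, 47), (385439532530137800, 49),
  (63484158299081520, 51), (7877932561061640, 53), (721480692460864, 55), (47465835030320, 57),
  (2163842859360, 59), (65033528560, 61), (1198774720, 63), (12103014, 65), (54740, 67), (70, 69),
  (0, 71)]

/-- Odd binomial coefficients of `71`. -/
def L71 : List (ℕ × ℕ) :=
  [(71, 1), (57155, 3), (13019909, 5), (1329890705, 7), (74473879480, 9), (2560547383576, 11),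
  (58104729088840, 13), (914734449370024, 15), (10358022441395860, 17), (86680293062207460, 19),
  (547324136192795676, 21), (2650087220696342700, 23), (9964327949818248552, 25),
  (29381992672540989320, 27), (68461490315822108120, 29), (126764178842844806648, 31),
  (187265264199657100730, 33), (221256270138418389602, 35), (209296471752557936110, 37),
  (158455223553556008310, 39), (95846086442150951368, 41), (46171702771135840360, 43),
  (17629195603524593592, 45), (5300174441392685400, 47), (1243918491347262900, 49),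
  (225368761961739396, 51), (31074067324187580, 53), (3201570572795084, 55), (240719591939480, 57),
  (12802736917880, 59), (461738052776, 61), (10639125640, 63), (143218999, 65), (971635, 67), (2485,
  69), (1, 71)]

/-- The tree for `70`. -/
def T70 : Tr :=
  .N (.N (.N (.N (.N (.Z 68 10) (.Z 68 10)) (.N (.Z 68 10) (.Z 68 10))) (.N (.N (.N (.N (.C 73 8)
  (.N (.N (.Z 78 6) (.Z 78 6)) (.C 75 7))) (.C 71 8)) (.Z 70 10)) (.N (.Z 69 10) (.Z 69 10)))) (.N
  (.N (.N (.Z 67 10) (.Z 67 10)) (.N (.Z 67 10) (.Z 67 10))) (.N (.N (.Z 67 10) (.Z 67 10)) (.N (.Z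
  67 10) (.Z 67 10))))) (.N (.N (.N (.N (.Z 68 10) (.Z 68 10)) (.N (.Z 68 10) (.Z 68 10))) (.N (.N
  (.Z 69 10) (.Z 69 10)) (.N (.N (.C 71 8) (.N (.N (.Z 76 7) (.Z 76 7)) (.C 73 8))) (.Z 70 10))))
  (.N (.N (.N (.Z 67 10) (.Z 67 10)) (.N (.Z 67 10) (.Z 67 10))) (.N (.N (.Z 67 10) (.Z 67 10)) (.N
  (.Z 67 10) (.Z 67 10)))))

/-- The tree for `71`. -/
def T71 : Tr :=
  .N (.N (.N (.N (.N (.Z 69 10) (.Z 69 10)) (.N (.Z 69 10) (.Z 69 10))) (.N (.N (.Z 69 10) (.Z 69
  10)) (.N (.Z 69 10) (.Z 69 10)))) (.N (.N (.N (.Z 70 10) (.Z 70 10)) (.N (.Z 70 10) (.Z 70 10)))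
  (.N (.N (.Z 71 10) (.Z 71 10)) (.N (.N (.C 73 9) (.N (.N (.C 79 7) (.C 77 7)) (.C 75 8))) (.Z 72
  10))))) (.N (.N (.N (.N (.Z 68 10) (.Z 68 10)) (.N (.Z 68 10) (.Z 68 10))) (.N (.N (.Z 69 10) (.Z
  69 10)) (.N (.N (.C 71 8) (.N (.N (.Z 76 7) (.Z 76 7)) (.C 73 8))) (.Z 70 10)))) (.N (.N (.N (.Z
  67 10) (.Z 67 10)) (.N (.Z 67 10) (.Z 67 10))) (.N (.N (.Z 67 10) (.Z 67 10)) (.N (.Z 67 10) (.Z
  67 10)))))

lemma L70_eq : L70 = (List.range 36).map (fun i => (fc 70 (2 * i + 1), 2 * i + 1)) := by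
  decide +kernel

lemma L71_eq : L71 = (List.range 36).map (fun i => (fc 71 (2 * i + 1), 2 * i + 1)) := by
  decide +kernel

lemma chk70 : chk L70 T70 0 0 = true := by decide +kernel

lemma chk71 : chk L71 T71 0 0 = true := by decide +kernel

lemma zeros70 : T70.zeros = 34 := by decide +kernel

lemma zeros71 : T71.zeros = 32 := by decide +kernel

lemma bd70 : bchk 100 T70 0 = true := by decide +kernel

lemma bd71 : bchk 100 T71 0 = true := by decide +kernel

lemma big {M : ℕ} (h : 100 ≤ M) : 100 + M + 1 ≤ 2 ^ M := by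
  induction M, h using Nat.le_induction with
  | base => norm_num
  | succ M hM ih => rw [pow_succ]; omega

theorem cnt70 {M : ℕ} (h : 100 ≤ M) : cnt 70 M 0 0 = 34 := by
  have hb := big h
  rw [count_tree (t := 36) (by norm_num) (by norm_num) hb h (by omega) T70 0 0 (by norm_num)
    (chk_ok L70_eq _ _ _ chk70) (bchk_ok _ _ _ bd70), zeros70]

theorem cnt71 {M : ℕ} (h : 100 ≤ M) : cnt 71 M 0 0 = 32 := by
  have hb := big h
  rw [count_tree (t := 36) (by norm_num) (by norm_num) hb h (by omega) T71 0 0 (by norm_num)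
    (chk_ok L71_eq _ _ _ chk71) (bchk_ok _ _ _ bd71), zeros71]

end Q263.ST
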